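import Pool.Agent.W602.RG.Stm3

set_option autoImplicit false

open FF MvPolynomial Pool.Agent.W603.LV Pool.Agent.W603.PV Pool.Agent.W603.CX
open Pool.Agent.W602.GT (lin val IsForm VarPts SubVar IsComponent GeneralType Cone tn)
open scoped LinearAlgebra.Projectivization

namespace Pool.Agent.W509.RG.LNW

open Pool.Agent.W602.RG

lemma exists_zero {k : Type} [Field k] {L : Type} [Field L] [Algebra k L] [CharZero k] [IsFF k L]
    {f : L} (hf : Transcendental k f) : ∃ w : Place k L, 0 < w.ord f := by
  obtain ⟨S, hS, -, h3⟩ := zeros (k := k) (K := L) hf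
  by_contra hcon
  push Not at hcon
  have hS0 : S = ∅ := by
    rw [Finset.eq_empty_iff_forall_notMem]
    intro w hw
    exact absurd ((hS w).1 hw) (not_lt.2 (hcon w))
  rw [hS0, Finset.sum_empty] at h3
  have := IsFF.finite (k := k) (K := L) hf
  have h4 := Module.finrank_pos (R := IntermediateField.adjoin k {f}) (M := L)
  omega

theorem main : S_LNW := by
  classical
  intro k _ _ _ n K _ _ y x v hx ⟨j1, j2, hv⟩ hline
  have hinf : Infinite k := inferInstance
  obtain ⟨T, hTd⟩ : ∃ T : RatFunc k, T = RatFunc.X := ⟨_, rfl⟩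
  have hTt : Transcendental k T := hTd ▸ RatFunc.transcendental_X
  have hT0 : T ≠ 0 := by rw [hTd]; exact RatFunc.X_ne_zero
  obtain ⟨c, hc⟩ := exists_zero (k := k) hTt
  obtain ⟨j0, hj0⟩ : ∃ j0, x j0 ≠ 0 := by
    by_contra h
    push Not at h
    exact hx (funext h)
  set φ : k →+* RatFunc k := algebraMap k (RatFunc k) with hφ
  have hφi : Function.Injective φ := φ.injective
  let g : ℕ → Fin (n + 1) → RatFunc k := fun m j => φ (x j) + T ^ (m + 1) * φ (v j)
  have hordT : ∀ m : ℕ, 0 < c.ord (T ^ (m + 1)) := by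
    intro m
    rw [c.ord_pow]
    positivity
  have hφ0 : ∀ a : k, a ≠ 0 → φ a ≠ 0 := fun a ha => by rw [Ne, map_eq_zero]; exact ha
  have hg0 : ∀ m : ℕ, g m j0 ≠ 0 ∧ c.ord (g m j0) = 0 := by
    intro m
    change φ (x j0) + T ^ (m + 1) * φ (v j0) ≠ 0 ∧ c.ord (φ (x j0) + T ^ (m + 1) * φ (v j0)) = 0
    by_cases h : v j0 = 0
    · rw [h, map_zero, mul_zero, add_zero]
      exact ⟨hφ0 _ hj0, c.ord_const hj0⟩
    · have h1 : c.ord (φ (x j0)) = 0 := c.ord_const hj0
      have h2 : 0 < c.ord (T ^ (m + 1) * φ (v j0)) := by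
        rw [c.ord_mul (pow_ne_zero _ hT0) (hφ0 _ h), c.ord_const h, add_zero]
        exact hordT m
      have h3 := c.ord_add_eq (hφ0 _ hj0) (mul_ne_zero (pow_ne_zero (m + 1) hT0) (hφ0 _ h))
        (by rw [h1]; exact h2)
      exact ⟨h3.1, h3.2.trans h1⟩
  have hgne : ∀ m, g m ≠ 0 := fun m h => (hg0 m).1 (by rw [h]; rfl)
  refine ⟨c, ?_⟩
  refine Set.infinite_of_injective_forall_mem (f := fun m => Projectivization.mk (RatFunc k) (g m)
    (hgne m)) ?_ ?_
  · intro N M hNM
    rw [Projectivization.mk_eq_mk_iff] at hNM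
    obtain ⟨a, ha⟩ := hNM
    have h1 : (a : RatFunc k) * g M j1 = g N j1 := congrFun ha j1
    have h2 : (a : RatFunc k) * g M j2 = g N j2 := congrFun ha j2
    have h3 : g N j1 * g M j2 = g M j1 * g N j2 := by
      rw [← h1, ← h2]
      ring
    have h4 : (T ^ (N + 1) - T ^ (M + 1)) * φ (v j1 * x j2 - v j2 * x j1) = 0 := by
      change (φ (x j1) + T ^ (N + 1) * φ (v j1)) * (φ (x j2) + T ^ (M + 1) * φ (v j2)) =
        (φ (x j1) + T ^ (M + 1) * φ (v j1)) * (φ (x j2) + T ^ (N + 1) * φ (v j2)) at h3
      rw [map_sub, map_mul, map_mul]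
      linear_combination h3
    have h5 : φ (v j1 * x j2 - v j2 * x j1) ≠ 0 := hφ0 _ (sub_ne_zero.2 hv)
    have h6 : T ^ (N + 1) = T ^ (M + 1) := by
      rcases mul_eq_zero.1 h4 with h | h
      · exact sub_eq_zero.1 h
      · exact absurd h h5
    have h7 := congrArg c.ord h6
    rw [c.ord_pow, c.ord_pow] at h7
    have h8 : (((N + 1 : ℕ) : ℤ) - ((M + 1 : ℕ) : ℤ)) * c.ord T = 0 := by linear_combination h7
    rcases mul_eq_zero.1 h8 with h | h
    · omega
    · omega
  · intro m
    refine ⟨g m, hgne m, ?_, ?_, rfl⟩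
    · intro H hH hyH
      -- a polynomial in one variable
      let q : Polynomial k := aeval (fun j => Polynomial.C (x j) + Polynomial.X *
        Polynomial.C (v j)) H
      have hq0 : q = 0 := by
        apply Polynomial.funext
        intro a
        rw [Polynomial.eval_zero]
        have h1 := hline a H hH hyH
        have h2 : Polynomial.eval a q = aeval (fun j => x j + a * v j) H := by
          have e1 : (fun j => x j + a * v j) = fun j => (Polynomial.aeval a)
              (Polynomial.C (x j) + Polynomial.X * Polynomial.C (v j)) := by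
            funext j
            simp
            ring
          rw [e1, ← MvPolynomial.comp_aeval, AlgHom.comp_apply]
          rfl
        rw [h2]
        exact h1
      have h3 : val (g m) H = (Polynomial.aeval (T ^ (m + 1))) q := by
        have e1 : g m = fun j => (Polynomial.aeval (T ^ (m + 1)))
            (Polynomial.C (x j) + Polynomial.X * Polynomial.C (v j)) := by
          funext j
          simp [g, hφ]
          ring
        unfold Pool.Agent.W602.GT.val
        rw [e1, ← MvPolynomial.comp_aeval, AlgHom.comp_apply]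
      rw [h3, hq0, map_zero]
    · intro i j
      have e : algebraMap k (RatFunc k) (x i) * g m j - algebraMap k (RatFunc k) (x j) * g m i =
          T ^ (m + 1) * φ (x i * v j - x j * v i) := by
        change φ (x i) * (φ (x j) + T ^ (m + 1) * φ (v j)) -
          φ (x j) * (φ (x i) + T ^ (m + 1) * φ (v i)) = _
        rw [map_sub, map_mul, map_mul]
        ring
      rw [e]
      by_cases h : x i * v j - x j * v i = 0
      · left
        rw [h, map_zero, mul_zero]
      · right
        rw [c.ord_mul (pow_ne_zero _ hT0) (hφ0 _ h), c.ord_const h, add_zero]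
        have h1 := pord_le c (hg0 m).1
        rw [(hg0 m).2] at h1
        exact lt_of_le_of_lt h1 (hordT m)

end Pool.Agent.W509.RG.LNW
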